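import Pool.Agent.Helper54.FP.Inst
import Pool.Agent.Helper54.PW.Basic
import Pool.Agent.Helper79.PW.TraceOne

/-!
# FP-26: an integral fundamental matrix of an unramified cover of the affine line
-/

set_option autoImplicit false
open scoped Pointwise

namespace Pool.Agent.Helper54.FP

open Pool.Agent.Helper54.PW Pool.Agent.Helper54.PW.TraceOne

namespace Integral26

section

variable {R K L : Type} [CommRing R] [IsDomain R] [IsPrincipalIdealRing R] [Field K] [Field L]
  [Algebra R K] [IsFractionRing R K] [Algebra K L] [Algebra R L] [IsScalarTower R K L]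
  [FiniteDimensional K L] [IsGalois K L]

theorem aut_add (σ : L ≃ₐ[K] L) (b c : integralClosure R L) :
    aut σ (b + c) = aut σ b + aut σ c := Subtype.ext (map_add σ _ _)

theorem aut_sub (σ : L ≃ₐ[K] L) (b c : integralClosure R L) :
    aut σ (b - c) = aut σ b - aut σ c := Subtype.ext (map_sub σ _ _)

/-- `aut σ` as a ring homomorphism -/
def autR (σ : L ≃ₐ[K] L) : integralClosure R L →+* integralClosure R L where
  toFun := aut σ
  map_one' := aut_one σ
  map_mul' := aut_mul σ
  map_zero' := Subtype.ext (map_zero σ)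
  map_add' := aut_add σ

theorem aut_smul (σ : L ≃ₐ[K] L) (r : R) (b : integralClosure R L) :
    aut σ (r • b) = r • aut σ b := by
  apply Subtype.ext
  change σ (r • (b : L)) = r • σ (b : L)
  rw [← algebraMap_smul K r, map_smul, algebraMap_smul]

theorem aut_one' (b : integralClosure R L) : aut (1 : L ≃ₐ[K] L) b = b := Subtype.ext rfl

include K in
theorem fix_trivial (hR : ∀ m : Ideal R, m.IsMaximal → m ≠ ⊥)
    (hunr : ∀ A : ValuationSubring L, A ≠ ⊤ → (∀ r : R, algebraMap R L r ∈ A) →
      ∀ σ : L ≃ₐ[K] L, σ • A = A → σ = 1) (q : Ideal (integralClosure R L)) (hqmax : q.IsMaximal)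
    (σ : L ≃ₐ[K] L) (hσ : ∀ b : integralClosure R L, b ∈ q ↔ aut σ b ∈ q) : σ = 1 := by
  classical
  have hinj : Function.Injective (algebraMap R L) := by
    rw [IsScalarTower.algebraMap_eq R K L]
    exact (algebraMap K L).injective.comp (IsFractionRing.injective R K)
  have hinjB : Function.Injective (algebraMap R (integralClosure R L)) := by
    intro r s h
    exact hinj (congrArg Subtype.val h)
  haveI : Algebra.IsIntegral R (integralClosure R L) := inferInstance
  have hqp : q.IsPrime := hqmax.isPrime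
  have hm : (q.comap (algebraMap R (integralClosure R L))).IsMaximal :=
    Ideal.isMaximal_comap_of_isIntegral_of_isMaximal q
  obtain ⟨t, htm, ht0⟩ := Submodule.exists_mem_ne_zero_of_ne_bot (hR _ hm)
  have htq : algebraMap R (integralClosure R L) t ∈ q := htm
  have hq0 : q ≠ ⊥ := by
    intro h
    rw [h, Ideal.mem_bot] at htq
    exact ht0 (hinjB (by rw [htq, map_zero]))
  have hK : ∀ x : L, ∀ q : Ideal (integralClosure R L), q.IsPrime → q ≠ ⊥ →
      x ∈ loc q ∨ x⁻¹ ∈ loc q := by
    intro x q hp hq
    exact loc_total (K := K) q hq x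
  set A : ValuationSubring L := vr hK q hqp hq0 with hA
  have hmemA : ∀ x, x ∈ A ↔ x ∈ loc q := fun x => Iff.rfl
  have hAtop : A ≠ ⊤ := by
    intro h
    have h1 : (algebraMap R L t)⁻¹ ∈ A := by rw [h]; trivial
    obtain ⟨s, c, hs, h2⟩ := (hmemA _).1 h1
    apply hs
    have ht1 : algebraMap R L t ≠ 0 := fun h3 => ht0 (hinj (by rw [h3, map_zero]))
    have h3 : s = algebraMap R (integralClosure R L) t * c := by
      apply Subtype.ext
      change (s : L) = algebraMap R L t * c
      rw [← h2]
      field_simp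
    rw [h3]
    exact q.mul_mem_right _ htq
  have hAR : ∀ r : R, algebraMap R L r ∈ A := by
    intro r
    refine (hmemA _).2 ⟨1, algebraMap R (integralClosure R L) r,
      fun h => hqp.ne_top ((Ideal.eq_top_iff_one q).2 h), ?_⟩
    change (1 : L) * algebraMap R L r = algebraMap R L r
    rw [one_mul]
  apply hunr A hAtop hAR σ
  have hback : ∀ b : integralClosure R L, aut σ (aut σ⁻¹ b) = b := by
    intro b
    apply Subtype.ext
    change σ (σ⁻¹ (b : L)) = b
    exact σ.apply_symm_apply _
  ext x
  rw [ValuationSubring.mem_smul_pointwise_iff_exists]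
  constructor
  · rintro ⟨y, hy, rfl⟩
    obtain ⟨s, c, hs, h⟩ := (hmemA _).1 hy
    refine (hmemA _).2 ⟨aut σ s, aut σ c, fun h1 => hs ((hσ s).2 h1), ?_⟩
    change σ s * σ y = σ c
    rw [← map_mul, h]
  · intro hx
    obtain ⟨s, c, hs, h⟩ := (hmemA _).1 hx
    refine ⟨σ⁻¹ x, (hmemA _).2 ⟨aut σ⁻¹ s, aut σ⁻¹ c, fun h1 => hs ?_, ?_⟩, ?_⟩
    · have := (hσ _).1 h1
      rwa [hback] at this
    · change σ⁻¹ s * σ⁻¹ x = σ⁻¹ c
      rw [← map_mul, h]
    · change σ (σ⁻¹ x) = x
      exact σ.apply_symm_apply _

/-- The functions `τ ↦ ∑ s, d s * τ (B s)`. -/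
def PP {S : Type} [Fintype S] (B : S → integralClosure R L)
    (F : (L ≃ₐ[K] L) → integralClosure R L) : Prop :=
  ∃ d : S → integralClosure R L, ∀ τ, F τ = ∑ s, d s * aut τ (B s)

section
variable {S : Type} [Fintype S] (B : S → integralClosure R L)

theorem PP_add {F F' : (L ≃ₐ[K] L) → integralClosure R L} (h : PP B F) (h' : PP B F') :
    PP B (fun τ => F τ + F' τ) := by
  obtain ⟨d, hd⟩ := h
  obtain ⟨d', hd'⟩ := h'
  refine ⟨fun s => d s + d' s, fun τ => ?_⟩
  simp only
  rw [hd, hd', ← Finset.sum_add_distrib]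
  apply Finset.sum_congr rfl
  intro s _
  ring

theorem PP_sum {ι : Type} (T : Finset ι) (F : ι → (L ≃ₐ[K] L) → integralClosure R L)
    (h : ∀ i ∈ T, PP B (F i)) : PP B (fun τ => ∑ i ∈ T, F i τ) := by
  classical
  induction T using Finset.induction_on with
  | empty => exact ⟨fun _ => 0, fun τ => by simp⟩
  | insert a T ha ih =>
    have h1 := PP_add B (h a (Finset.mem_insert_self _ _))
      (ih fun i hi => h i (Finset.mem_insert_of_mem hi))
    simpa only [Finset.sum_insert ha] using h1

variable (hB : ∀ x : integralClosure R L, ∃ r : S → R, x = ∑ s, r s • B s)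
include hB

theorem PP_term (a b : integralClosure R L) :
    PP B (fun τ : L ≃ₐ[K] L => a * aut τ b) := by
  obtain ⟨r, hr⟩ := hB b
  refine ⟨fun s => r s • a, fun τ => ?_⟩
  have h1 : aut τ b = ∑ s, r s • aut τ (B s) := by
    conv_lhs => rw [hr]
    have h2 := map_sum (autR (R := R) τ) (fun s => r s • B s) Finset.univ
    change aut τ _ = ∑ s, aut τ (r s • B s) at h2
    rw [h2]
    exact Finset.sum_congr rfl fun s _ => aut_smul τ _ _
  simp only
  rw [h1, Finset.mul_sum]
  apply Finset.sum_congr rfl
  intro s _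
  rw [mul_smul_comm, smul_mul_assoc]

theorem PP_mul {F F' : (L ≃ₐ[K] L) → integralClosure R L} (h : PP B F) (h' : PP B F') :
    PP B (fun τ => F τ * F' τ) := by
  obtain ⟨d, hd⟩ := h
  obtain ⟨d', hd'⟩ := h'
  have h1 : (fun τ => F τ * F' τ) = fun τ : L ≃ₐ[K] L => ∑ s ∈ Finset.univ, ∑ t ∈ Finset.univ,
      (d s * d' t) * aut τ (B s * B t) := by
    funext τ
    rw [hd, hd', Finset.sum_mul_sum]
    apply Finset.sum_congr rfl
    intro s _
    apply Finset.sum_congr rfl
    intro t _
    rw [aut_mul]
    ring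
  rw [h1]
  apply PP_sum B
  intro s _
  apply PP_sum B
  intro t _
  exact PP_term B hB _ _

theorem PP_prod {ι : Type} (T : Finset ι) (F : ι → (L ≃ₐ[K] L) → integralClosure R L)
    (h : ∀ i ∈ T, PP B (F i)) : PP B (fun τ => ∏ i ∈ T, F i τ) := by
  classical
  induction T using Finset.induction_on with
  | empty =>
    have h1 := PP_term (K := K) B hB 1 1
    simpa only [aut_one, mul_one, Finset.prod_empty] using h1
  | insert a T ha ih =>
    have h1 := PP_mul B hB (h a (Finset.mem_insert_self _ _))
      (ih fun i hi => h i (Finset.mem_insert_of_mem hi))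
    simpa only [Finset.prod_insert ha] using h1

open Classical in
theorem exists_dual (hR : ∀ m : Ideal R, m.IsMaximal → m ≠ ⊥)
    (hunr : ∀ A : ValuationSubring L, A ≠ ⊤ → (∀ r : R, algebraMap R L r ∈ A) →
      ∀ σ : L ≃ₐ[K] L, σ • A = A → σ = 1) :
    ∃ d : S → integralClosure R L, ∀ τ : L ≃ₐ[K] L,
      (∑ s, d s * aut τ (B s)) = if τ = 1 then 1 else 0 := by
  classical
  -- the functions separating `1` and `σ`
  have hsep : ∀ σ : L ≃ₐ[K] L, ∃ F : (L ≃ₐ[K] L) → integralClosure R L,
      PP B F ∧ F 1 = 1 ∧ (σ ≠ 1 → F σ = 0) := by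
    intro σ
    by_cases hσ : σ = 1
    · refine ⟨fun τ => 1 * aut τ 1, PP_term B hB 1 1, ?_, fun h => absurd hσ h⟩
      simp only [aut_one, mul_one]
    have htop : Ideal.span (Set.range fun x : integralClosure R L => x - aut σ x) = ⊤ := by
      by_contra hne
      obtain ⟨q, hq, hle⟩ := Ideal.exists_le_maximal _ hne
      apply hσ
      apply fix_trivial (K := K) hR hunr q hq σ
      intro b
      have h1 : b - aut σ b ∈ q := hle (Ideal.subset_span ⟨b, rfl⟩)
      constructor
      · intro hb
        have := q.sub_mem hb h1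
        rwa [sub_sub_cancel] at this
      · intro hb
        have := q.add_mem h1 hb
        rwa [sub_add_cancel] at this
    have h1 : (1 : integralClosure R L) ∈
        Ideal.span (Set.range fun x : integralClosure R L => x - aut σ x) := by
      rw [htop]; trivial
    rw [Ideal.span, Finsupp.mem_span_range_iff_exists_finsupp] at h1
    obtain ⟨c, hc⟩ := h1
    refine ⟨fun τ => (∑ x ∈ c.support, c x * aut τ x) +
      (-(∑ x ∈ c.support, c x * aut σ x)) * aut τ 1, ?_, ?_, ?_⟩
    · apply PP_add B
      · exact PP_sum B _ _ fun x _ => PP_term B hB _ _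
      · exact PP_term B hB _ _
    · simp only [aut_one, mul_one]
      rw [← sub_eq_add_neg, ← Finset.sum_sub_distrib, ← hc, Finsupp.sum]
      apply Finset.sum_congr rfl
      intro x _
      rw [aut_one', smul_eq_mul, mul_sub]
    · intro _
      simp only [aut_one, mul_one]
      rw [add_neg_cancel]
  choose F hF1 hF2 hF3 using hsep
  obtain ⟨d, hd⟩ := PP_prod B hB Finset.univ F fun σ _ => hF1 σ
  refine ⟨d, fun τ => ?_⟩
  rw [← hd]
  by_cases hτ : τ = 1
  · rw [if_pos hτ, hτ]
    exact Finset.prod_eq_one fun σ _ => hF2 σ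
  · rw [if_neg hτ]
    exact Finset.prod_eq_zero (Finset.mem_univ τ) (hF3 τ hτ)

end

/-- A basis of the integral closure indexed by the Galois group. -/
theorem exists_basis : ∃ B : (L ≃ₐ[K] L) → integralClosure R L,
    ∀ x : integralClosure R L, ∃ r : (L ≃ₐ[K] L) → R, x = ∑ s, r s • B s := by
  classical
  haveI : Module.IsTorsionFree R L := by
    haveI := FaithfulSMul.trans R K L
    infer_instance
  haveI : Module.Free R (integralClosure R L) :=
    IsIntegralClosure.module_free R K L (integralClosure R L)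
  haveI : IsNoetherian R (integralClosure R L) :=
    IsIntegralClosure.isNoetherian R K L (integralClosure R L)
  haveI : Module.Finite R (integralClosure R L) := inferInstance
  have hrank := IsIntegralClosure.rank R K L (integralClosure R L)
  have hcard : Fintype.card (Fin (Module.finrank R (integralClosure R L))) =
      Fintype.card (L ≃ₐ[K] L) := by
    rw [Fintype.card_fin, hrank, ← Nat.card_eq_fintype_card, IsGalois.card_aut_eq_finrank]
  let e := Fintype.equivOfCardEq hcard
  let b := (Module.finBasis R (integralClosure R L)).reindex e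
  refine ⟨b, fun x => ⟨fun s => b.repr x s, ?_⟩⟩
  exact (b.sum_repr x).symm

open Classical in
/-- The matrix of the conjugates of a basis and its inverse. -/
theorem exists_mat (hR : ∀ m : Ideal R, m.IsMaximal → m ≠ ⊥)
    (hunr : ∀ A : ValuationSubring L, A ≠ ⊤ → (∀ r : R, algebraMap R L r ∈ A) →
      ∀ σ : L ≃ₐ[K] L, σ • A = A → σ = 1) :
    ∃ b d : (L ≃ₐ[K] L) → L, (∀ s, IsIntegral R (b s)) ∧ (∀ s, IsIntegral R (d s)) ∧
      ∀ σ τ : L ≃ₐ[K] L, (∑ s, σ (d s) * τ (b s)) = if σ = τ then 1 else 0 := by
  obtain ⟨B, hB⟩ := exists_basis (R := R) (K := K) (L := L)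
  obtain ⟨d, hd⟩ := exists_dual (K := K) B hB hR hunr
  refine ⟨fun s => B s, fun s => d s, fun s => (B s).2, fun s => (d s).2, fun σ τ => ?_⟩
  have h1 := congrArg (fun x : integralClosure R L => σ (x : L)) (hd (σ⁻¹ * τ))
  have h2 : σ ((∑ s, d s * aut (σ⁻¹ * τ) (B s) : integralClosure R L) : L) =
      ∑ s, σ (d s : L) * τ (B s : L) := by
    rw [AddSubmonoidClass.coe_finsetSum, map_sum]
    apply Finset.sum_congr rfl
    intro s _
    change σ ((d s : L) * (σ⁻¹ * τ) (B s : L)) = _
    rw [map_mul]
    congr 1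
    change σ (σ⁻¹ (τ (B s : L))) = _
    exact σ.apply_symm_apply _
  rw [h2] at h1
  rw [h1]
  by_cases h : σ = τ
  · rw [if_pos h, if_pos (by rw [h, inv_mul_cancel])]
    exact map_one σ
  · rw [if_neg h, if_neg (fun h3 => h (by rw [inv_mul_eq_one] at h3; exact h3))]
    exact map_zero σ

end

end Integral26

open Integral26 in
theorem exists_Y {G : Type} [Group G] [Fintype G] [DecidableEq G] {k L : Type} [Field k]
    [IsAlgClosed k] [Field L] [Algebra (RatFunc k) L]
    [FiniteDimensional (RatFunc k) L] [IsGalois (RatFunc k) L] (H : Subgroup G)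
    (f : H ≃* (L ≃ₐ[RatFunc k] L))
    (hunr : ∀ A : ValuationSubring L, A ≠ ⊤ →
      (∀ c : k, algebraMap (RatFunc k) L (algebraMap k (RatFunc k) c) ∈ A) → tX k L ∈ A →
      ∀ σ : L ≃ₐ[RatFunc k] L, σ • A = A → σ = 1) :
    ∃ Y : Matrix G G L, IsUnit Y ∧ (∀ i j, Y i j ∈ intSub k L) ∧
      (∀ i j, Y⁻¹ i j ∈ intSub k L) ∧ ∀ h : H, Y.map (f h) = actM (h : G) Y := by
  classical
  letI : Algebra (Polynomial k) L := (pk k L).toAlgebra
  haveI : IsScalarTower (Polynomial k) (RatFunc k) L := IsScalarTower.of_algebraMap_eq' rfl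
  obtain ⟨b, d, hb, hd, hbd⟩ := exists_mat (R := Polynomial k) (K := RatFunc k) (L := L)
    (by
      intro m hm h0
      exact Ring.ne_bot_of_isMaximal_of_not_isField hm (Polynomial.not_isField k) h0)
    (by
      intro A hA hR σ hσ
      apply hunr A hA _ _ σ hσ
      · intro c
        have h1 := hR (Polynomial.C c)
        have h2 : algebraMap (Polynomial k) L (Polynomial.C c) =
            algebraMap (RatFunc k) L (algebraMap k (RatFunc k) c) := by
          change (algebraMap (RatFunc k) L) (algebraMap (Polynomial k) (RatFunc k)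
            (Polynomial.C c)) = _
          congr 1
        rwa [h2] at h1
      · have h1 := hR Polynomial.X
        have h2 : algebraMap (Polynomial k) L Polynomial.X = tX k L := by
          change (algebraMap (RatFunc k) L) (algebraMap (Polynomial k) (RatFunc k)
            Polynomial.X) = _
          rw [RatFunc.algebraMap_X]
          rfl
        rwa [h2] at h1)
  obtain ⟨T, hT, -⟩ := H.exists_isComplement_right 1
  let e := hT.equiv
  have he : ∀ (h : H) (g : G), e (h * g) = (h * (e g).1, (e g).2) := hT.equiv_mul_left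
  have hint : ∀ {x : L}, IsIntegral (Polynomial k) x → ∀ σ : L ≃ₐ[RatFunc k] L,
      σ x ∈ intSub k L := by
    intro x hx σ
    exact intSub_map (mem_intSub.2 hx) σ
  let Y : Matrix G G L := fun i j => if (e i).2 = (e j).2 then f (e j).1 (b (f (e i).1)) else 0
  let Z : Matrix G G L := fun i j => if (e i).2 = (e j).2 then f (e i).1 (d (f (e j).1)) else 0
  have hZY : Z * Y = 1 := by
    ext i j
    rw [Matrix.mul_apply, Matrix.one_apply]
    change (∑ l, (if (e i).2 = (e l).2 then f (e i).1 (d (f (e l).1)) else 0) *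
      (if (e l).2 = (e j).2 then f (e j).1 (b (f (e l).1)) else 0)) = _
    have h1 : (∑ l, (if (e i).2 = (e l).2 then f (e i).1 (d (f (e l).1)) else 0) *
        (if (e l).2 = (e j).2 then f (e j).1 (b (f (e l).1)) else 0)) =
        ∑ q : H × T, (if (e i).2 = q.2 then f (e i).1 (d (f q.1)) else 0) *
        (if q.2 = (e j).2 then f (e j).1 (b (f q.1)) else 0) :=
      Fintype.sum_equiv e _ _ fun l => rfl
    rw [h1, Fintype.sum_prod_type_right]
    have h2 : ∀ c : T, (∑ h : H, (if (e i).2 = c then f (e i).1 (d (f h)) else 0) *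
        (if c = (e j).2 then f (e j).1 (b (f h)) else 0)) =
        if (e i).2 = c then (if c = (e j).2 then (if f (e i).1 = f (e j).1 then 1 else 0) else 0)
          else 0 := by
      intro c
      by_cases h3 : (e i).2 = c
      · by_cases h4 : c = (e j).2
        · simp only [if_pos h3, if_pos h4]
          rw [← hbd (f (e i).1) (f (e j).1)]
          exact Fintype.sum_equiv f.toEquiv _ _ fun h => rfl
        · simp only [if_pos h3, if_neg h4, mul_zero, Finset.sum_const_zero]
      · simp only [if_neg h3, zero_mul, Finset.sum_const_zero]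
    rw [Finset.sum_congr rfl fun c _ => h2 c, Finset.sum_ite_eq, if_pos (Finset.mem_univ _)]
    by_cases hij : i = j
    · subst hij
      simp
    · rw [if_neg hij]
      split_ifs with h3 h4
      · exfalso
        apply hij
        apply e.injective
        exact Prod.ext (f.injective h4) h3
      · rfl
      · rfl
  have hYZ : Y * Z = 1 := mul_eq_one_comm.1 hZY
  have hinv : Y⁻¹ = Z := Matrix.inv_eq_right_inv hYZ
  refine ⟨Y, ?_, ?_, ?_, ?_⟩
  · exact (Matrix.isUnit_iff_isUnit_det _).2 (Matrix.isUnit_det_of_right_inverse hYZ)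
  · intro i j
    change (if (e i).2 = (e j).2 then f (e j).1 (b (f (e i).1)) else 0) ∈ _
    split_ifs
    · exact hint (hb _) _
    · exact (intSub k L).zero_mem
  · intro i j
    rw [hinv]
    change (if (e i).2 = (e j).2 then f (e i).1 (d (f (e j).1)) else 0) ∈ _
    split_ifs
    · exact hint (hd _) _
    · exact (intSub k L).zero_mem
  · intro h
    ext i j
    rw [Matrix.map_apply, actM_apply]
    change f h (if (e i).2 = (e j).2 then f (e j).1 (b (f (e i).1)) else 0) =
      if (e i).2 = (e (h * j)).2 then f (e (h * j)).1 (b (f (e i).1)) else 0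
    rw [he]
    simp only
    split_ifs
    · rw [map_mul]
      rfl
    · exact map_zero _

end Pool.Agent.Helper54.FP
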